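import Mathlib

set_option autoImplicit false

/-!
# Complete bipartite graphs in matroidal families

If a matroidal family of graphs contains `K_{m,n}` (with `m ≥ 1`) then `n ≤ m ^ 2 - m + 1`. In
particular no matroidal family contains `K_{3,8}`.
-/

namespace Pool.Agent.Results.MP_41a700_co.BipartiteBound

open Set

/-- The edge sets of the subgraphs of `G` that are (isomorphic to) members of `P`. -/
def circuitSets (P : ∀ V : Type, SimpleGraph V → Prop) {V : Type} (G : SimpleGraph V) :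
    Set (Set (Sym2 V)) :=
  {C | ∃ H : G.Subgraph, P H.verts H.coe ∧ H.edgeSet = C}

/-- A matroidal family: a non-empty, isomorphism-closed collection of finite connected simple
graphs such that, for every finite simple graph `G`, the edge sets of the subgraphs of `G` that
belong to the family satisfy the circuit axioms of a matroid on the edge set of `G`. -/
structure IsMatroidalFamily (P : ∀ V : Type, SimpleGraph V → Prop) : Prop where
  nonempty : ∃ (V : Type) (G : SimpleGraph V), P V G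
  finite : ∀ (V : Type) (G : SimpleGraph V), P V G → Finite V
  connected : ∀ (V : Type) (G : SimpleGraph V), P V G → G.Connected
  iso : ∀ (V W : Type) (G : SimpleGraph V) (H : SimpleGraph W), P V G → Nonempty (G ≃g H) → P W H
  antichain : ∀ (V : Type) (G : SimpleGraph V), Finite V →
    ∀ C ∈ circuitSets P G, ∀ D ∈ circuitSets P G, ¬ C ⊂ D
  elimination : ∀ (V : Type) (G : SimpleGraph V), Finite V →
    ∀ C ∈ circuitSets P G, ∀ D ∈ circuitSets P G, C ≠ D → ∀ e ∈ C ∩ D,
      ∃ F ∈ circuitSets P G, F ⊆ (C ∪ D) \ {e}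

/-! ### A finite matroid from its circuits -/

section Axioms

variable {α : Type} [Finite α] {𝒞 : Set (Set α)}

theorem augment (helim : ∀ C ∈ 𝒞, ∀ D ∈ 𝒞, C ≠ D → ∀ e ∈ C ∩ D, ∃ F ∈ 𝒞, F ⊆ (C ∪ D) \ {e})
    (I J : Set α) (hI : ∀ C ∈ 𝒞, ¬ C ⊆ I) (hJ : ∀ C ∈ 𝒞, ¬ C ⊆ J) (hIJ : I.ncard < J.ncard) :
    ∃ e ∈ J, e ∉ I ∧ ∀ C ∈ 𝒞, ¬ C ⊆ insert e I := by
  by_contra hcon
  push Not at hcon
  -- minimal choice
  let S : Set (Set α) := {K | K ⊆ I ∪ J ∧ (∀ C ∈ 𝒞, ¬ C ⊆ K) ∧ I.ncard < K.ncard}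
  have hS : S.Nonempty := ⟨J, subset_union_right, hJ, hIJ⟩
  obtain ⟨K, ⟨hK1, hK2, hK3⟩, hmin⟩ := WellFounded.has_min
    (InvImage.wf (fun K : Set α => (I \ K).ncard) Nat.lt_wfRel.wf) S hS
  have hmin' : ∀ T ∈ S, (I \ K).ncard ≤ (I \ T).ncard := fun T hT => not_lt.1 (hmin T hT)
  have hfin : ∀ X : Set α, X.Finite := fun X => Set.toFinite X
  -- `I \ K` is nonempty
  have h1 : (I \ K).Nonempty := by
    by_contra h
    rw [Set.not_nonempty_iff_eq_empty, Set.sdiff_eq_empty] at h
    obtain ⟨f, hfK, hfI⟩ := Set.exists_mem_notMem_of_ncard_lt_ncard hK3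
    have hfJ : f ∈ J := by
      rcases hK1 hfK with h' | h'
      · exact absurd h' hfI
      · exact h'
    obtain ⟨C, hC, hCI⟩ := hcon f hfJ hfI
    exact hK2 C hC (hCI.trans (Set.insert_subset hfK h))
  obtain ⟨e, heI, heK⟩ := h1
  have h2 : ∀ f ∈ K, f ∉ I → ∃ C ∈ 𝒞, C ⊆ insert e K ∧ f ∉ C ∧ e ∈ C := by
    intro f hf hfI
    let T : Set α := insert e K \ {f}
    have hfe : e ≠ f := by rintro rfl; exact hfI heI
    have hT1 : T ⊆ I ∪ J := by
      rintro x ⟨hx, -⟩
      rcases hx with rfl | hx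
      · exact Or.inl heI
      · exact hK1 hx
    have hT2 : T.ncard = K.ncard := by
      have : (insert e K).ncard = K.ncard + 1 := Set.ncard_insert_of_notMem heK (hfin _)
      have h3 : T.ncard = (insert e K).ncard - 1 :=
        Set.ncard_sdiff_singleton_of_mem (Set.mem_insert_of_mem _ hf)
      omega
    have hT3 : (I \ T).ncard < (I \ K).ncard := by
      apply Set.ncard_lt_ncard _ (hfin _)
      constructor
      · rintro x ⟨hxI, hxT⟩
        refine ⟨hxI, fun hxK => hxT ⟨Set.mem_insert_of_mem _ hxK, ?_⟩⟩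
        rintro rfl
        exact hfI hxI
      · intro hsub
        have := hsub ⟨heI, heK⟩
        exact this.2 ⟨Set.mem_insert _ _, hfe⟩
    have hTS : T ∉ S := fun hTS => by
      have := hmin' T hTS
      omega
    have : ∃ C ∈ 𝒞, C ⊆ T := by
      by_contra h
      push Not at h
      exact hTS ⟨hT1, h, by omega⟩
    obtain ⟨C, hC, hCT⟩ := this
    refine ⟨C, hC, hCT.trans Set.sdiff_subset, fun hfC => (hCT hfC).2 rfl, ?_⟩
    by_contra heC
    apply hK2 C hC
    intro x hx
    rcases (hCT hx).1 with rfl | h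
    · exact absurd hx heC
    · exact h
  obtain ⟨g, hgK, hgI⟩ := Set.exists_mem_notMem_of_ncard_lt_ncard hK3
  obtain ⟨Cg, hCg, hCg1, hCg2, hCg3⟩ := h2 g hgK hgI
  have h3 : ∃ h ∈ Cg, h ∈ K ∧ h ∉ I := by
    by_contra h
    push Not at h
    apply hI Cg hCg
    intro x hx
    rcases hCg1 hx with rfl | hxK
    · exact heI
    · exact h x hx hxK
  obtain ⟨h, hhC, hhK, hhI⟩ := h3
  obtain ⟨Ch, hCh, hCh1, hCh2, hCh3⟩ := h2 h hhK hhI
  have hne : Cg ≠ Ch := by
    rintro rfl
    exact hCh2 hhC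
  obtain ⟨F, hF, hFs⟩ := helim Cg hCg Ch hCh hne e ⟨hCg3, hCh3⟩
  apply hK2 F hF
  intro x hx
  obtain ⟨hx1, hx2⟩ := hFs hx
  have : x ∈ insert e K := hx1.elim (fun h => hCg1 h) (fun h => hCh1 h)
  rcases this with rfl | h
  · exact absurd rfl hx2
  · exact h

/-- The matroid whose independent sets contain no member of `𝒞`. -/
noncomputable def mat (𝒞 : Set (Set α)) (hne : ∀ C ∈ 𝒞, C.Nonempty)
    (helim : ∀ C ∈ 𝒞, ∀ D ∈ 𝒞, C ≠ D → ∀ e ∈ C ∩ D, ∃ F ∈ 𝒞, F ⊆ (C ∪ D) \ {e}) : Matroid α :=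
  (IndepMatroid.ofFinite (E := Set.univ) (Set.toFinite _) (fun I => ∀ C ∈ 𝒞, ¬ C ⊆ I)
    (fun C hC h => (hne C hC).ne_empty (Set.subset_empty_iff.1 h))
    (fun _ _ hJ hIJ C hC h => hJ C hC (h.trans hIJ))
    (fun I J hI hJ hIJ => augment helim I J hI hJ hIJ)
    (fun _ _ => Set.subset_univ _)).matroid

theorem mat_indep (hne : ∀ C ∈ 𝒞, C.Nonempty)
    (helim : ∀ C ∈ 𝒞, ∀ D ∈ 𝒞, C ≠ D → ∀ e ∈ C ∩ D, ∃ F ∈ 𝒞, F ⊆ (C ∪ D) \ {e}) (I : Set α) :
    (mat 𝒞 hne helim).Indep I ↔ ∀ C ∈ 𝒞, ¬ C ⊆ I := by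
  simp [mat]

theorem mat_E (hne : ∀ C ∈ 𝒞, C.Nonempty)
    (helim : ∀ C ∈ 𝒞, ∀ D ∈ 𝒞, C ≠ D → ∀ e ∈ C ∩ D, ∃ F ∈ 𝒞, F ⊆ (C ∪ D) \ {e}) :
    (mat 𝒞 hne helim).E = Set.univ := by
  simp [mat]

theorem mem_closure (hne : ∀ C ∈ 𝒞, C.Nonempty)
    (hanti : ∀ C ∈ 𝒞, ∀ D ∈ 𝒞, ¬ C ⊂ D)
    (helim : ∀ C ∈ 𝒞, ∀ D ∈ 𝒞, C ≠ D → ∀ e ∈ C ∩ D, ∃ F ∈ 𝒞, F ⊆ (C ∪ D) \ {e})
    {C : Set α} (hC : C ∈ 𝒞) {e : α} (he : e ∈ C) {X : Set α} (hX : C \ {e} ⊆ X) :
    e ∈ (mat 𝒞 hne helim).closure X := by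
  have hcirc : (mat 𝒞 hne helim).IsCircuit C := by
    rw [Matroid.isCircuit_iff_minimal_not_indep (by rw [mat_E]; exact Set.subset_univ _)]
    refine ⟨?_, ?_⟩
    · show ¬ (mat 𝒞 hne helim).Indep C
      rw [mat_indep]
      push Not
      exact ⟨C, hC, subset_rfl⟩
    · intro D hD hDC
      replace hD : ¬ (mat 𝒞 hne helim).Indep D := hD
      rw [mat_indep] at hD
      push Not at hD
      obtain ⟨F, hF, hFD⟩ := hD
      have : F = C := by
        by_contra hFC
        exact hanti F hF C hC (lt_of_le_of_ne (hFD.trans hDC) hFC)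
      rw [← this]
      exact hFD
  have := hcirc.mem_closure_sdiff_singleton_of_mem he
  exact (mat 𝒞 hne helim).closure_subset_closure hX this

end Axioms

/-! ### The matroids on complete graphs given by a matroidal family -/

/-- all edges between `A` and `B` -/
def bip {W : Type} (A B : Set W) : Set (Sym2 W) := {e | ∃ a ∈ A, ∃ b ∈ B, e = s(a, b)}

/-- all edges inside `X` -/
def inside {W : Type} (X : Set W) : Set (Sym2 W) := {e | ∃ a ∈ X, ∃ b ∈ X, a ≠ b ∧ e = s(a, b)}

variable {P : ∀ V : Type, SimpleGraph V → Prop} {m n : ℕ}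

theorem bip_mem (hP : IsMatroidalFamily P)
    (hK : P (Fin m ⊕ Fin n) (completeBipartiteGraph (Fin m) (Fin n)))
    {W : Type} [Finite W] (A B : Set W) (hAB : Disjoint A B) (hA : A.ncard = m)
    (hB : B.ncard = n) : bip A B ∈ circuitSets P (⊤ : SimpleGraph W) := by
  classical
  have fA : Fintype A := Fintype.ofFinite A
  have fB : Fintype B := Fintype.ofFinite B
  have eA : Fin m ≃ A := by
    apply (Fintype.equivFinOfCardEq _).symm
    rw [← hA, Set.ncard_eq_toFinset_card', Set.toFinset_card]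
  have eB : Fin n ≃ B := by
    apply (Fintype.equivFinOfCardEq _).symm
    rw [← hB, Set.ncard_eq_toFinset_card', Set.toFinset_card]
  let f : Fin m ⊕ Fin n → W := Sum.elim (fun i => (eA i : W)) (fun j => (eB j : W))
  have hne : ∀ (i : Fin m) (j : Fin n), (eA i : W) ≠ eB j := fun i j h =>
    Set.disjoint_left.1 hAB (eA i).2 (h ▸ (eB j).2)
  have hf : Function.Injective f := by
    rintro (i | i) (j | j) hij
    · simp only [f, Sum.elim_inl] at hij
      rw [eA.injective (Subtype.ext hij)]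
    · exact absurd hij (hne i j)
    · exact absurd hij.symm (hne j i)
    · simp only [f, Sum.elim_inr] at hij
      rw [eB.injective (Subtype.ext hij)]
  let g : SimpleGraph.Copy (completeBipartiteGraph (Fin m) (Fin n)) (⊤ : SimpleGraph W) :=
    ⟨⟨f, by
      intro a b hab
      rw [SimpleGraph.top_adj]
      exact fun h => hab.ne (hf h)⟩, hf⟩
  refine ⟨g.toSubgraph, hP.iso _ _ _ _ hK ⟨g.isoToSubgraph⟩, ?_⟩
  ext e
  constructor
  · intro he
    induction e using Sym2.ind with
    | _ x y =>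
      rw [SimpleGraph.Subgraph.mem_edgeSet] at he
      simp only [SimpleGraph.Copy.toSubgraph, SimpleGraph.Subgraph.map_adj, Relation.Map,
        SimpleGraph.Subgraph.top_adj] at he
      obtain ⟨a, b, hab, rfl, rfl⟩ := he
      rw [completeBipartiteGraph_adj] at hab
      rcases a with a | a <;> rcases b with b | b <;> simp at hab
      · exact ⟨_, (eA a).2, _, (eB b).2, rfl⟩
      · exact ⟨_, (eA b).2, _, (eB a).2, Sym2.eq_swap⟩
  · rintro ⟨a, ha, b, hb, rfl⟩
    rw [SimpleGraph.Subgraph.mem_edgeSet]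
    simp only [SimpleGraph.Copy.toSubgraph, SimpleGraph.Subgraph.map_adj, Relation.Map,
      SimpleGraph.Subgraph.top_adj]
    refine ⟨Sum.inl (eA.symm ⟨a, ha⟩), Sum.inr (eB.symm ⟨b, hb⟩), ?_, ?_, ?_⟩
    · simp
    · simp [g, f]
    · simp [g, f]

/-- edges of `K_W` from `v` to `T` -/
theorem encard_bip_le {W : Type} (v : W) (T : Set W) : (bip {v} T).encard ≤ T.encard := by
  have : bip {v} T ⊆ (fun t => s(v, t)) '' T := by
    rintro e ⟨a, ha, b, hb, rfl⟩
    rw [Set.mem_singleton_iff] at ha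
    subst ha
    exact ⟨b, hb, rfl⟩
  exact (Set.encard_le_encard this).trans (Set.encard_image_le _ _)

theorem encard_inside_le {W : Type} (X : Set W) : (inside X).encard ≤ X.encard * X.encard := by
  have : inside X ⊆ (fun t : W × W => s(t.1, t.2)) '' (X ×ˢ X) := by
    rintro e ⟨a, ha, b, hb, -, rfl⟩
    exact ⟨(a, b), ⟨ha, hb⟩, rfl⟩
  refine (Set.encard_le_encard this).trans ((Set.encard_image_le _ _).trans ?_)
  rw [Set.encard_prod]

theorem rank_le (hP : IsMatroidalFamily P) (hm : 1 ≤ m) (hn : 1 ≤ n)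
    (hK : P (Fin m ⊕ Fin n) (completeBipartiteGraph (Fin m) (Fin n)))
    {W : Type} [Finite W] (hne : ∀ C ∈ circuitSets P (⊤ : SimpleGraph W), C.Nonempty)
    (k : ℕ) : ∀ X : Set W, X.ncard = m + n + k →
    (mat (circuitSets P (⊤ : SimpleGraph W)) hne
      (hP.elimination W ⊤ inferInstance)).eRk (inside X) ≤
      (((m + n) * (m + n) + (m - 1) * k : ℕ) : ℕ∞) := by
  classical
  set M := mat (circuitSets P (⊤ : SimpleGraph W)) hne (hP.elimination W ⊤ inferInstance) with hM
  have hE : M.E = Set.univ := mat_E _ _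
  induction k with
  | zero =>
    intro X hX
    refine (M.eRk_le_encard _).trans ((encard_inside_le X).trans ?_)
    rw [← (Set.toFinite X).cast_ncard_eq, hX]
    simp
  | succ k ih =>
    intro X hX
    obtain ⟨v, hv⟩ : X.Nonempty := by
      rw [← Set.ncard_pos (Set.toFinite X)]
      omega
    set Y := X \ {v} with hY
    have hYc : Y.ncard = m + n + k := by
      rw [hY, Set.ncard_sdiff_singleton_of_mem hv]
      omega
    have hYX : Y ⊆ X := Set.sdiff_subset
    have hvY : v ∉ Y := fun h => h.2 rfl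
    obtain ⟨T, hTY, hTc⟩ := Set.exists_subset_card_eq (s := Y) (n := m - 1) (by omega)
    have hcl : inside X ⊆ M.closure (inside Y ∪ bip {v} T) := by
      have main : ∀ b ∈ Y, s(v, b) ∈ M.closure (inside Y ∪ bip {v} T) := by
        intro b hb
        by_cases hbT : b ∈ T
        · refine M.subset_closure _ (by rw [hE]; exact Set.subset_univ _) (Or.inr ?_)
          exact ⟨v, rfl, b, hbT, rfl⟩
        · have hAc : (insert b T).ncard = m := by
            rw [Set.ncard_insert_of_notMem hbT (Set.toFinite _)]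
            omega
          have hAY : insert b T ⊆ Y := Set.insert_subset hb hTY
          have hd : (Y \ insert b T).ncard = n + k := by
            rw [Set.ncard_sdiff hAY (Set.toFinite _)]
            omega
          obtain ⟨B, hBY, hBc⟩ := Set.exists_subset_card_eq (s := Y \ insert b T) (n := n - 1)
            (by omega)
          have hvB : v ∉ B := fun h => hvY (hBY h).1
          have hBc' : (insert v B).ncard = n := by
            rw [Set.ncard_insert_of_notMem hvB (Set.toFinite _)]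
            omega
          have hdisj : Disjoint (insert b T) (insert v B) := by
            rw [Set.disjoint_left]
            rintro x hx (rfl | hx')
            · exact hvY (hAY hx)
            · exact (hBY hx').2 hx
          have hC := bip_mem hP hK (insert b T) (insert v B) hdisj hAc hBc'
          refine mem_closure hne (hP.antichain W ⊤ inferInstance) (hP.elimination W ⊤ inferInstance)
            hC (e := s(v, b)) ⟨b, Set.mem_insert _ _, v, Set.mem_insert _ _, Sym2.eq_swap⟩ ?_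
          rintro e ⟨⟨x, hx, y, hy, rfl⟩, hne'⟩
          rcases hy with rfl | hy
          · rcases hx with rfl | hx
            · exact absurd Sym2.eq_swap hne'
            · exact Or.inr ⟨y, rfl, x, hx, Sym2.eq_swap⟩
          · refine Or.inl ⟨x, hAY hx, y, (hBY hy).1, ?_, rfl⟩
            rintro rfl
            exact (hBY hy).2 hx
      rintro e ⟨a, ha, b, hb, hab, rfl⟩
      by_cases hav : a = v
      · subst hav
        exact main b ⟨hb, fun h => hab h.symm⟩
      · by_cases hbv : b = v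
        · subst hbv
          rw [Sym2.eq_swap]
          exact main a ⟨ha, hav⟩
        · refine M.subset_closure _ (by rw [hE]; exact Set.subset_univ _) (Or.inl ?_)
          exact ⟨a, ⟨ha, hav⟩, b, ⟨hb, hbv⟩, hab, rfl⟩
    have h1 : M.eRk (inside X) ≤ M.eRk (inside Y ∪ bip {v} T) := by
      rw [← M.eRk_closure_eq (inside Y ∪ bip {v} T)]
      exact M.eRk_mono hcl
    have h2 : M.eRk (inside Y ∪ bip {v} T) ≤ M.eRk (inside Y) + (bip {v} T).encard :=
      M.eRk_union_le_eRk_add_encard _ _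
    have h3 : (bip {v} T).encard ≤ ((m - 1 : ℕ) : ℕ∞) := by
      refine (encard_bip_le v T).trans ?_
      rw [← (Set.toFinite T).cast_ncard_eq, hTc]
    have h4 := ih Y hYc
    calc M.eRk (inside X) ≤ M.eRk (inside Y) + (bip {v} T).encard := h1.trans h2
      _ ≤ (((m + n) * (m + n) + (m - 1) * k : ℕ) : ℕ∞) + ((m - 1 : ℕ) : ℕ∞) := add_le_add h4 h3
      _ = _ := by
        rw [← Nat.cast_add]
        congr 1
        ring

/-- The first coordinate is constant on the vertices of a connected subgraph all of whose edges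
stay inside a block. -/
theorem block_const {ι T : Type} {H : (⊤ : SimpleGraph (ι × T)).Subgraph}
    (hc : H.coe.Connected) (hb : ∀ x y, H.Adj x y → x.1 = y.1) :
    ∀ x ∈ H.verts, ∀ y ∈ H.verts, x.1 = y.1 := by
  intro x hx y hy
  obtain ⟨w⟩ := hc.preconnected ⟨x, hx⟩ ⟨y, hy⟩
  have : ∀ (p q : H.verts), H.coe.Walk p q → (p : ι × T).1 = (q : ι × T).1 := by
    intro p q w
    induction w with
    | nil => rfl
    | cons h _ ih => exact (hb _ _ h).trans ih
  exact this _ _ w

/-- If a matroidal family of graphs contains `K_{m,n}` with `m ≥ 1` then `n ≤ m ^ 2 - m + 1`. For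
`m = 3`, `n = 8` this says that no matroidal family contains `K_{3,8}`. -/
theorem result (P : ∀ V : Type, SimpleGraph V → Prop) (hP : IsMatroidalFamily P) (m n : ℕ)
    (hm : 1 ≤ m) (hn : m ^ 2 - m + 1 < n) :
    ¬ P (Fin m ⊕ Fin n) (completeBipartiteGraph (Fin m) (Fin n)) := by
  classical
  intro hK
  have hn1 : 1 ≤ n := by omega
  obtain ⟨m', rfl⟩ : ∃ m', m = m' + 1 := ⟨m - 1, by omega⟩
  obtain ⟨n', rfl⟩ : ∃ n', n = n' + 1 := ⟨n - 1, by omega⟩
  set m := m' + 1 with hmdef
  set n := n' + 1 with hndef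
  set a := (m + n) * (m + n) + 1 with ha
  have : NeZero a := ⟨by omega⟩
  -- the blocks
  let A : Fin a → Set (Fin a × (Fin m ⊕ Fin n)) := fun i => Set.range (fun p : Fin m => ((i, Sum.inl p) : Fin a × (Fin m ⊕ Fin n)))
  let B : Fin a → Set (Fin a × (Fin m ⊕ Fin n)) := fun i => Set.range (fun q : Fin n => ((i, Sum.inr q) : Fin a × (Fin m ⊕ Fin n)))
  have hAc : ∀ i, (A i).ncard = m := by
    intro i
    have : (A i).ncard = (Set.univ : Set (Fin m)).ncard := by
      rw [← Set.ncard_image_of_injective (Set.univ : Set (Fin m))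
        (f := fun p : Fin m => ((i, Sum.inl p) : Fin a × (Fin m ⊕ Fin n))) (by intro p q h; simpa using h)]
      rw [Set.image_univ]
    rw [this, Set.ncard_univ, Nat.card_eq_fintype_card, Fintype.card_fin]
  have hBc : ∀ i, (B i).ncard = n := by
    intro i
    have : (B i).ncard = (Set.univ : Set (Fin n)).ncard := by
      rw [← Set.ncard_image_of_injective (Set.univ : Set (Fin n))
        (f := fun p : Fin n => ((i, Sum.inr p) : Fin a × (Fin m ⊕ Fin n))) (by intro p q h; simpa using h)]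
      rw [Set.image_univ]
    rw [this, Set.ncard_univ, Nat.card_eq_fintype_card, Fintype.card_fin]
  have hABd : ∀ i, Disjoint (A i) (B i) := by
    intro i
    rw [Set.disjoint_left]
    rintro x ⟨p, rfl⟩ ⟨q, hq⟩
    simp at hq
  have hbip : ∀ i, bip (A i) (B i) ∈ circuitSets P (⊤ : SimpleGraph (Fin a × (Fin m ⊕ Fin n))) := fun i =>
    bip_mem hP hK (A i) (B i) (hABd i) (hAc i) (hBc i)
  have hbe : ∀ i, s(((i, Sum.inl 0) : Fin a × (Fin m ⊕ Fin n)), (i, Sum.inr 0)) ∈ bip (A i) (B i) := fun i =>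
    ⟨_, ⟨0, rfl⟩, _, ⟨0, rfl⟩, rfl⟩
  have hne : ∀ C ∈ circuitSets P (⊤ : SimpleGraph (Fin a × (Fin m ⊕ Fin n))), C.Nonempty := by
    intro C hC
    rw [Set.nonempty_iff_ne_empty]
    rintro rfl
    refine hP.antichain _ ⊤ inferInstance ∅ hC _ (hbip 0) ?_
    refine lt_of_le_of_ne (Set.empty_subset _) ?_
    intro h
    have := hbe 0
    rw [← h] at this
    exact this
  set M := mat (circuitSets P (⊤ : SimpleGraph (Fin a × (Fin m ⊕ Fin n)))) hne (hP.elimination _ ⊤ inferInstance) with hM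
  -- a large independent set
  let f : Fin a × (Fin m × Fin n) → Sym2 (Fin a × (Fin m ⊕ Fin n)) := fun t => s((t.1, Sum.inl t.2.1), (t.1, Sum.inr t.2.2))
  have hf : Function.Injective f := by
    rintro ⟨i, p, q⟩ ⟨i', p', q'⟩ h
    simp only [f, Sym2.eq_iff, Prod.mk.injEq, Sum.inl.injEq, Sum.inr.injEq, reduceCtorEq, and_false,
      or_false] at h
    obtain ⟨⟨rfl, rfl⟩, -, rfl⟩ := h
    rfl
  let D : Set (Fin a × (Fin m × Fin n)) := Set.univ ×ˢ {((0 : Fin m), (0 : Fin n))}ᶜ
  have hD : D.ncard = a * (m * n - 1) := by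
    rw [Set.ncard_prod, Set.ncard_univ, Nat.card_eq_fintype_card, Fintype.card_fin,
      Set.ncard_compl, Set.ncard_singleton, Nat.card_eq_fintype_card, Fintype.card_prod,
      Fintype.card_fin, Fintype.card_fin]
  have hind : M.Indep (f '' D) := by
    rw [hM, mat_indep]
    intro C hC hCsub
    obtain ⟨H, hPH, rfl⟩ := id hC
    have hHc := hP.connected _ _ hPH
    have hb : ∀ x y, H.Adj x y → x.1 = y.1 := by
      intro x y hxy
      obtain ⟨t, ht, hxy'⟩ := hCsub (SimpleGraph.Subgraph.mem_edgeSet.2 hxy)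
      simp only [f, Sym2.eq_iff] at hxy'
      rcases hxy' with ⟨h1, h2⟩ | ⟨h1, h2⟩
      · rw [← h1, ← h2]
      · rw [← h1, ← h2]
    have hconst := block_const hHc hb
    obtain ⟨e, he⟩ := hne _ hC
    obtain ⟨t, ht, rfl⟩ := hCsub he
    have htv : ((t.1, Sum.inl t.2.1) : Fin a × (Fin m ⊕ Fin n)) ∈ H.verts := H.edge_vert (SimpleGraph.Subgraph.mem_edgeSet.1 he)
    refine hP.antichain _ ⊤ inferInstance _ hC _ (hbip t.1) ?_
    have key : H.edgeSet ⊆ bip (A t.1) (B t.1) \ {s(((t.1, Sum.inl 0) : Fin a × (Fin m ⊕ Fin n)), (t.1, Sum.inr 0))} := by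
      intro e' he'
      obtain ⟨u, hu, rfl⟩ := hCsub he'
      have huv : ((u.1, Sum.inl u.2.1) : Fin a × (Fin m ⊕ Fin n)) ∈ H.verts :=
        H.edge_vert (SimpleGraph.Subgraph.mem_edgeSet.1 he')
      have hut : u.1 = t.1 := hconst _ huv _ htv
      refine ⟨⟨_, ⟨u.2.1, by rw [hut]⟩, _, ⟨u.2.2, by rw [hut]⟩, rfl⟩, ?_⟩
      intro h
      simp only [f, Set.mem_singleton_iff, Sym2.eq_iff, Prod.mk.injEq, Sum.inl.injEq, Sum.inr.injEq,
        reduceCtorEq, and_false, or_false] at h
      exact hu.2 (Prod.ext h.1.2 h.2.2)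
    exact lt_of_le_of_ne (key.trans Set.sdiff_subset) (fun h => by
      have h5 := hbe t.1
      rw [← h] at h5
      exact (key h5).2 rfl)
  have hle : (f '' D).encard ≤ M.eRk (inside (Set.univ : Set (Fin a × (Fin m ⊕ Fin n)))) := by
    apply hind.encard_le_eRk_of_subset
    rintro e ⟨t, -, rfl⟩
    exact ⟨_, trivial, _, trivial, by simp, rfl⟩
  have hup := rank_le hP (by omega : 1 ≤ m) (by omega : 1 ≤ n) hK hne ((a - 1) * (m + n))
    (Set.univ : Set (Fin a × (Fin m ⊕ Fin n))) (by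
      rw [Set.ncard_univ, Nat.card_eq_fintype_card, Fintype.card_prod, Fintype.card_sum,
        Fintype.card_fin, Fintype.card_fin, Fintype.card_fin]
      have : a = (a - 1) + 1 := by omega
      nth_rewrite 1 [this]
      ring)
  have hfin := hle.trans hup
  rw [hf.injOn.encard_image, ← (Set.toFinite D).cast_ncard_eq, hD, Nat.cast_le] at hfin
  have e1 : m - 1 = m' := by omega
  have e2 : a - 1 = (m + n) * (m + n) := by omega
  rw [e1, e2] at hfin
  have e3 : m ^ 2 - m = m' ^ 2 + m' := by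
    have : m ^ 2 = m' ^ 2 + m' + m := by rw [hmdef]; ring
    omega
  rw [e3] at hn
  have e4 : m' * (m + n) + 1 ≤ m * n - 1 := by
    have h6 : m * n = m' * n + n := by rw [hmdef]; ring
    have h7 : m' * (m + n) = m' ^ 2 + m' + m' * n := by rw [hmdef]; ring
    omega
  have e5 : a * (m' * (m + n) + 1) ≤ a * (m * n - 1) := Nat.mul_le_mul_left _ e4
  have e6 : a * (m' * (m + n) + 1) =
      m' * ((m + n) * (m + n) * (m + n)) + (m + n) * (m + n) + m' * (m + n) + 1 := by
    rw [ha]; ring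
  omega

end Pool.Agent.Results.MP_41a700_co.BipartiteBound
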